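import Pool.Agent.Helper32_ABCT.Stmts2

/-!
# CDSL: facet data of a direct sum from the left summand (MP_a17fcb_ag)
-/

open MvPolynomial

namespace ABCT.H65

open FlatCell ABCT

/-! ### general -/

theorem mon_family {K : Type*} [Field K] {M : Finset (Finset ℕ)} {p : Finset ℕ → K}
    (hp : ∀ I ∈ M, p I ≠ 0) {ι : Type*} (s : Finset ι) (g : ι → Finset ℕ)
    (hg : ∀ i ∈ s, g i ∈ M) (n : ι → ℤ) (hn : ∑ i ∈ s, n i = 0) :
    ∏ i ∈ s, p (g i) ^ n i ∈ Mon M p := by
  classical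
  rcases s.eq_empty_or_nonempty with rfl | ⟨i₀, hi₀⟩
  · simpa using mon_one
  · have h0 : ∏ i ∈ s, p (g i) ^ n i = ∏ i ∈ s, (p (g i) / p (g i₀)) ^ n i := by
      have : ∏ i ∈ s, (p (g i) / p (g i₀)) ^ n i =
          (∏ i ∈ s, p (g i) ^ n i) / ∏ i ∈ s, p (g i₀) ^ n i := by
        rw [← Finset.prod_div_distrib]
        exact Finset.prod_congr rfl fun i _ => div_zpow _ _ _
      rw [this, ← zpow_sum₀ (hp _ (hg _ hi₀)), hn, zpow_zero, div_one]
    rw [h0]
    exact mon_prod hp _ _ fun i hi => mon_zpow hp (mon_quot hp (hg i hi) (hg _ hi₀)) _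

/-- a degree zero monomial in `a * p (g i)` -/
theorem mon_family' {K L : Type*} [Field K] [Field L] {M : Finset (Finset ℕ)} {p : Finset ℕ → K}
    {M' : Finset (Finset ℕ)} {p' : Finset ℕ → L}
    (hp : ∀ I ∈ M', p' I ≠ 0) (σ : K →+* L) (g : Finset ℕ → Finset ℕ) (a : L) (ha : a ≠ 0)
    (hg : ∀ i ∈ M, g i ∈ M') (hpg : ∀ i ∈ M, p' (g i) = σ (p i) * a) {f : K} (hf : f ∈ Mon M p) :
    σ f ∈ Mon M' p' := by
  obtain ⟨n, hn, rfl⟩ := hf
  have h0 : σ (∏ I ∈ M, p I ^ n I) = ∏ I ∈ M, p' (g I) ^ n I := by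
    have : ∏ I ∈ M, p' (g I) ^ n I = (∏ I ∈ M, σ (p I) ^ n I) * ∏ I ∈ M, a ^ n I := by
      rw [← Finset.prod_mul_distrib]
      exact Finset.prod_congr rfl fun i hi => by rw [hpg i hi, mul_zpow]
    rw [this, ← zpow_sum₀ ha, hn, zpow_zero, mul_one, map_prod]
    exact Finset.prod_congr rfl fun i _ => map_zpow₀ _ _ _
  rw [h0]
  exact mon_family hp _ _ hg _ hn

theorem lmono_mapDomain {V W K : Type*} [Field K] (ι : V ↪ W) (y : W → K) (m : V →₀ ℤ) :
    lmono y (m.mapDomain ι) = lmono (fun v => y (ι v)) m := by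
  rw [lmono, Finsupp.prod_mapDomain_index_inj ι.injective]
  rfl

theorem lmono_congr {V K : Type*} [Field K] (y z : V → K) (m : V →₀ ℤ)
    (h : ∀ v ∈ m.support, y v = z v) : lmono y m = lmono z m :=
  Finset.prod_congr rfl fun v hv => by
    show y v ^ m v = z v ^ m v
    rw [h v hv]

theorem zexp_add {W : Type*} (a b : W →₀ ℕ) : zexp (a + b) = zexp a + zexp b := by
  ext v
  simp [zexp]

theorem zexp_mapDomain {V W : Type*} (ι : V ↪ W) (a : V →₀ ℕ) :
    zexp (a.mapDomain ι) = (zexp a).mapDomain ι := by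
  classical
  induction a using Finsupp.induction_linear with
  | zero => simp [zexp]
  | add f g hf hg => rw [Finsupp.mapDomain_add, zexp_add, zexp_add, Finsupp.mapDomain_add, hf, hg]
  | single v n => simp [zexp]

/-! ### dsum -/

section dsum

variable {S S' T : Net}

theorem map_inl (a : S.flat.V →₀ ℤ) (i : ℕ) :
    (a.mapDomain (vdL S T)) (Sum.inl i) = a (Sum.inl i) := by
  have := Finsupp.mapDomain_apply (vdL S T).injective a (Sum.inl i)
  exact this

theorem map_inl' (b : T.flat.V →₀ ℤ) (i : ℕ) :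
    (b.mapDomain (vdR S T)) (Sum.inl i) = b (Sum.inl i) := by
  have := Finsupp.mapDomain_apply (vdR S T).injective b (Sum.inl i)
  exact this

theorem map_inrl (a : S.flat.V →₀ ℤ) (h : S.G) :
    (a.mapDomain (vdL S T)) (Sum.inr (Sum.inl h)) = a (Sum.inr h) := by
  have := Finsupp.mapDomain_apply (vdL S T).injective a (Sum.inr h)
  exact this

theorem map_inrr' (b : T.flat.V →₀ ℤ) (h : T.G) :
    (b.mapDomain (vdR S T)) (Sum.inr (Sum.inr h)) = b (Sum.inr h) := by
  have := Finsupp.mapDomain_apply (vdR S T).injective b (Sum.inr h)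
  exact this

theorem map_inrr (a : S.flat.V →₀ ℤ) (h : T.G) :
    (a.mapDomain (vdL S T)) (Sum.inr (Sum.inr h)) = 0 := by
  apply Finsupp.mapDomain_of_notMem_range
  rintro ⟨v, hv⟩
  rcases v with i | k
  · exact absurd hv (by simp [vdL])
  · have h1 : (Sum.inr (Sum.inl k) : ℕ ⊕ (S.G ⊕ T.G)) = Sum.inr (Sum.inr h) := hv
    simp at h1

theorem map_inrl' (b : T.flat.V →₀ ℤ) (h : S.G) :
    (b.mapDomain (vdR S T)) (Sum.inr (Sum.inl h)) = 0 := by
  apply Finsupp.mapDomain_of_notMem_range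
  rintro ⟨v, hv⟩
  rcases v with i | k
  · exact absurd hv (by simp [vdR])
  · have h1 : (Sum.inr (Sum.inr k) : ℕ ⊕ (S.G ⊕ T.G)) = Sum.inr (Sum.inl h) := hv
    simp at h1

/-- uniqueness of the decomposition -/
theorem uniq (hL : LsumStmt) (hV : (Net.dsum S T).Valid) {a a' : S.flat.V →₀ ℤ}
    {b b' : T.flat.V →₀ ℤ} (ha : a ∈ S.flat.Lam) (ha' : a' ∈ S.flat.Lam) (hb : b ∈ T.flat.Lam)
    (hb' : b' ∈ T.flat.Lam)
    (h : a.mapDomain (vdL S T) + b.mapDomain (vdR S T) =
      a'.mapDomain (vdL S T) + b'.mapDomain (vdR S T)) : a = a' ∧ b = b' := by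
  obtain ⟨v1, v2, v3⟩ := hV
  have ea := (hL S v1 a ha).1
  have ea' := (hL S v1 a' ha').1
  have eb := (hL T v2 b hb).1
  have eb' := (hL T v2 b' hb').1
  have hlab : ∀ i : ℕ, a (Sum.inl i) + b (Sum.inl i) = a' (Sum.inl i) + b' (Sum.inl i) := by
    intro i
    have := DFunLike.congr_fun h (Sum.inl i)
    rw [Finsupp.add_apply, Finsupp.add_apply, map_inl, map_inl', map_inl, map_inl'] at this
    exact this
  rw [Finset.disjoint_left] at v3
  constructor
  · ext v
    rcases v with i | k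
    · by_cases hi : i ∈ S.E
      · have := hlab i
        rw [eb i (v3 hi), eb' i (v3 hi)] at this
        simpa using this
      · rw [ea i hi, ea' i hi]
    · have := DFunLike.congr_fun h (Sum.inr (Sum.inl k))
      rw [Finsupp.add_apply, Finsupp.add_apply, map_inrl, map_inrl', map_inrl, map_inrl'] at this
      simpa using this
  · ext v
    rcases v with i | k
    · by_cases hi : i ∈ S.E
      · rw [eb i (v3 hi), eb' i (v3 hi)]
      · have := hlab i
        rw [ea i hi, ea' i hi] at this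
        simpa using this
    · have := DFunLike.congr_fun h (Sum.inr (Sum.inr k))
      rw [Finsupp.add_apply, Finsupp.add_apply, map_inrr, map_inrr', map_inrr, map_inrr'] at this
      simpa using this

/-- the label part of the sum is zero iff both label parts are zero -/
theorem lab0 (hL : LsumStmt) (hV : (Net.dsum S T).Valid) {a : S.flat.V →₀ ℤ}
    {b : T.flat.V →₀ ℤ} (ha : a ∈ S.flat.Lam) (hb : b ∈ T.flat.Lam) :
    (∀ i : ℕ, (a.mapDomain (vdL S T) + b.mapDomain (vdR S T) : (Net.dsum S T).flat.V →₀ ℤ)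
      (Sum.inl i) = 0) ↔ (∀ i : ℕ, a (Sum.inl i) = 0) ∧ ∀ i : ℕ, b (Sum.inl i) = 0 := by
  obtain ⟨v1, v2, v3⟩ := hV
  have ea := (hL S v1 a ha).1
  have eb := (hL T v2 b hb).1
  rw [Finset.disjoint_left] at v3
  have e : ∀ i : ℕ, (a.mapDomain (vdL S T) + b.mapDomain (vdR S T) :
      (Net.dsum S T).flat.V →₀ ℤ) (Sum.inl i) = a (Sum.inl i) + b (Sum.inl i) := by
    intro i
    rw [Finsupp.add_apply, map_inl, map_inl']
  constructor
  · intro h
    constructor
    · intro i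
      by_cases hi : i ∈ S.E
      · have := h i
        rw [e, eb i (v3 hi), add_zero] at this
        exact this
      · exact ea i hi
    · intro i
      by_cases hi : i ∈ S.E
      · exact eb i (v3 hi)
      · have := h i
        rw [e, ea i hi, zero_add] at this
        exact this
  · rintro ⟨h1, h2⟩ i
    rw [e, h1, h2, add_zero]

theorem lift_gapLam (hLds : LdsStmt) (hV' : (Net.dsum S' T).Valid) (f : S'.flat.F)
    (hf : f ∈ S'.flat.gapLamField) : liftF (vdL S' T) f ∈ (Net.dsum S' T).flat.gapLamField := by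
  let E : IntermediateField ℂ S'.flat.F :=
    { carrier := {f | liftF (vdL S' T) f ∈ (Net.dsum S' T).flat.gapLamField}
      mul_mem' := fun {a b} ha hb => by
        show liftF (vdL S' T) (a * b) ∈ (Net.dsum S' T).flat.gapLamField
        rw [map_mul]; exact mul_mem ha hb
      add_mem' := fun {a b} ha hb => by
        show liftF (vdL S' T) (a + b) ∈ (Net.dsum S' T).flat.gapLamField
        rw [map_add]; exact add_mem ha hb
      algebraMap_mem' := fun a => by
        show liftF (vdL S' T) (algebraMap ℂ _ a) ∈ (Net.dsum S' T).flat.gapLamField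
        rw [liftF_C]; exact IntermediateField.algebraMap_mem _ _
      inv_mem' := fun a ha => by
        show liftF (vdL S' T) a⁻¹ ∈ (Net.dsum S' T).flat.gapLamField
        rw [map_inv₀]; exact inv_mem ha }
  have : S'.flat.gapLamField ≤ E := by
    apply IntermediateField.adjoin_le_iff.mpr
    rintro _ ⟨m, hm, hm0, rfl⟩
    show liftF (vdL S' T) (S'.flat.mono m) ∈ (Net.dsum S' T).flat.gapLamField
    apply IntermediateField.subset_adjoin
    refine ⟨m.mapDomain (vdL S' T), ?_, ?_, ?_⟩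
    · rw [hLds S' T hV']
      exact ⟨m, hm, 0, zero_mem _, by simp⟩
    · intro i
      rw [map_inl]
      exact hm0 i
    · rw [mono_eq, mono_eq, lmono_map, lmono_mapDomain]
      congr 1
      funext v
      exact liftF_x _ _
  exact this hf

/-! ### the facet data -/

variable (φ : FacetData S.flat S'.flat)

theorem w_inl {i : ℕ} (hi : i ∉ T.E) :
    (dsumLFD T φ).w (Sum.inl i) = liftF (vdL S' T) (φ.w (Sum.inl i)) := by
  simp only [dsumLFD, if_neg hi]

theorem w_inl' {i : ℕ} (hi : i ∈ T.E) : (dsumLFD T φ).w (Sum.inl i) = xx (Sum.inl i) := by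
  simp only [dsumLFD, if_pos hi]
  rfl

theorem w_inr (h : S.G) :
    (dsumLFD T φ).w (Sum.inr (Sum.inl h)) = liftF (vdL S' T) (φ.w (Sum.inr h)) := rfl

theorem w_inr' (h : T.G) :
    (dsumLFD T φ).w (Sum.inr (Sum.inr h)) =
      xx (Sum.inr (show (Net.dsum S' T).flat.G from Sum.inr h)) := rfl

theorem lam_inl {i : ℕ} (hi : i ∉ T.E) : (dsumLFD T φ).lam (Sum.inl i) = φ.lam (Sum.inl i) := by
  simp only [dsumLFD, if_neg hi]

theorem lam_inl' {i : ℕ} (hi : i ∈ T.E) : (dsumLFD T φ).lam (Sum.inl i) = 0 := by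
  simp only [dsumLFD, if_pos hi]

/-- the pairing of the sum -/
theorem pair_sum (hL : LsumStmt) (hV : (Net.dsum S T).Valid) {a : S.flat.V →₀ ℤ}
    {b : T.flat.V →₀ ℤ} (ha : a ∈ S.flat.Lam) (hb : b ∈ T.flat.Lam) :
    (dsumLFD T φ).pair (a.mapDomain (vdL S T) + b.mapDomain (vdR S T)) = φ.pair a := by
  classical
  obtain ⟨v1, v2, v3⟩ := hV
  have ea := (hL S v1 a ha).1
  have eb := (hL T v2 b hb).1
  rw [Finset.disjoint_left] at v3
  rw [FacetData.pair, Finsupp.sum_add_index' (by simp) (by intros; ring),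
    Finsupp.sum_mapDomain_index_inj (vdL S T).injective,
    Finsupp.sum_mapDomain_index_inj (vdR S T).injective, FacetData.pair]
  have h1 : (a.sum fun v n => (dsumLFD T φ).lam (vdL S T v) * n) = a.sum fun v n => φ.lam v * n := by
    apply Finsupp.sum_congr
    intro v hv
    rcases v with i | h
    · have hi : i ∈ S.E := by
        by_contra hi
        exact (Finsupp.mem_support_iff.mp hv) (ea i hi)
      show (dsumLFD T φ).lam (Sum.inl i) * _ = _
      rw [lam_inl φ (v3 hi)]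
    · rfl
  have h2 : (b.sum fun v n => (dsumLFD T φ).lam (vdR S T v) * n) = 0 := by
    apply Finset.sum_eq_zero
    intro v hv
    rcases v with i | h
    · have hi : i ∈ T.E := by
        by_contra hi
        exact (Finsupp.mem_support_iff.mp hv) (eb i hi)
      show (dsumLFD T φ).lam (Sum.inl i) * _ = _
      rw [lam_inl' φ hi, zero_mul]
    · show (0 : ℤ) * _ = 0
      rw [zero_mul]
  rw [h1, h2, add_zero]

theorem w_ne (hw : ∀ v, S'.flat.Pos (φ.w v)) (v : (Net.dsum S T).flat.V) :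
    PosF ((dsumLFD T φ).w v) := by
  rcases v with i | h
  · by_cases hi : i ∈ T.E
    · rw [w_inl' φ hi]
      exact PosF.x _
    · rw [w_inl φ hi]
      exact PosF.liftF _ (hw _)
  · rcases h with h | h
    · rw [w_inr]
      exact PosF.liftF _ (hw _)
    · rw [w_inr']
      exact PosF.x _

theorem wmono_sum (hL : LsumStmt) (hV : (Net.dsum S T).Valid)
    (hw : ∀ v, S'.flat.Pos (φ.w v)) {a : S.flat.V →₀ ℤ}
    {b : T.flat.V →₀ ℤ} (ha : a ∈ S.flat.Lam) (hb : b ∈ T.flat.Lam) :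
    (dsumLFD T φ).wmono (a.mapDomain (vdL S T) + b.mapDomain (vdR S T)) =
      liftF (vdL S' T) (φ.wmono a) * liftF (vdR S' T) (T.flat.mono b) := by
  obtain ⟨v1, v2, v3⟩ := hV
  have ea := (hL S v1 a ha).1
  have eb := (hL T v2 b hb).1
  rw [Finset.disjoint_left] at v3
  rw [wmono_eq, lmono_add _ (fun v => (w_ne φ hw v).ne_zero), lmono_mapDomain, lmono_mapDomain,
    wmono_eq, mono_eq, lmono_map, lmono_map]
  congr 1
  · apply lmono_congr
    intro v hv
    rcases v with i | h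
    · have hi : i ∈ S.E := by
        by_contra hi
        exact (Finsupp.mem_support_iff.mp hv) (ea i hi)
      exact w_inl φ (v3 hi)
    · rfl
  · apply lmono_congr
    intro v hv
    rw [liftF_x]
    rcases v with i | h
    · have hi : i ∈ T.E := by
        by_contra hi
        exact (Finsupp.mem_support_iff.mp hv) (eb i hi)
      exact w_inl' φ hi
    · rfl

theorem mono_sum (a : S.flat.V →₀ ℤ) (b : T.flat.V →₀ ℤ) :
    (Net.dsum S T).flat.mono (a.mapDomain (vdL S T) + b.mapDomain (vdR S T)) =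
      liftF (vdL S T) (S.flat.mono a) * liftF (vdR S T) (T.flat.mono b) := by
  rw [mono_eq, lmono_add _ (fun v => xx_ne_zero v), lmono_mapDomain, lmono_mapDomain,
    mono_eq, mono_eq, lmono_map, lmono_map]
  congr 1
  · apply lmono_congr
    intro v _
    exact (liftF_x _ _).symm
  · apply lmono_congr
    intro v _
    exact (liftF_x _ _).symm

/-- (Res) -/
theorem res (hLds : LdsStmt) (hL : LsumStmt) (hV : (Net.dsum S T).Valid)
    (hV' : (Net.dsum S' T).Valid) (hφ : φ.Ok) : (dsumLFD T φ).Res := by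
  obtain ⟨θ, h1, h2, h3, h4⟩ := hφ.res
  -- pairs
  let F1 : {a : S.flat.V →₀ ℤ // a ∈ S.flat.Lam ∧ φ.pair a = 0} × T.flat.Lam →
      {m : (Net.dsum S T).flat.V →₀ ℤ // m ∈ (Net.dsum S T).flat.Lam ∧
        (dsumLFD T φ).pair m = 0} := fun p =>
    ⟨p.1.1.mapDomain (vdL S T) + p.2.1.mapDomain (vdR S T),
      (hLds S T hV _).mpr ⟨p.1.1, p.1.2.1, p.2.1, p.2.2, rfl⟩, by
        rw [pair_sum φ hL hV p.1.2.1 p.2.2]; exact p.1.2.2⟩
  let F2 : S'.flat.Lam × T.flat.Lam → (Net.dsum S' T).flat.Lam := fun p =>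
    ⟨p.1.1.mapDomain (vdL S' T) + p.2.1.mapDomain (vdR S' T),
      (hLds S' T hV' _).mpr ⟨p.1.1, p.1.2, p.2.1, p.2.2, rfl⟩⟩
  have b1 : Function.Bijective F1 := by
    constructor
    · rintro ⟨⟨a, ha, ha0⟩, ⟨b, hb⟩⟩ ⟨⟨a', ha', ha0'⟩, ⟨b', hb'⟩⟩ h
      obtain ⟨e1, e2⟩ := uniq hL hV ha ha' hb hb' (congrArg Subtype.val h)
      subst e1
      subst e2
      rfl
    · rintro ⟨m, hm, hm0⟩
      obtain ⟨a, ha, b, hb, rfl⟩ := (hLds S T hV _).mp hm
      rw [pair_sum φ hL hV ha hb] at hm0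
      exact ⟨(⟨a, ha, hm0⟩, ⟨b, hb⟩), rfl⟩
  have b2 : Function.Bijective F2 := by
    constructor
    · rintro ⟨⟨a, ha⟩, ⟨b, hb⟩⟩ ⟨⟨a', ha'⟩, ⟨b', hb'⟩⟩ h
      obtain ⟨e1, e2⟩ := uniq hL hV' ha ha' hb hb' (congrArg Subtype.val h)
      subst e1
      subst e2
      rfl
    · rintro ⟨m, hm⟩
      obtain ⟨a, ha, b, hb, rfl⟩ := (hLds S' T hV' _).mp hm
      exact ⟨(⟨a, ha⟩, ⟨b, hb⟩), rfl⟩
  let Θ : {m : (Net.dsum S T).flat.V →₀ ℤ // m ∈ (Net.dsum S T).flat.Lam ∧
        (dsumLFD T φ).pair m = 0} ≃ (Net.dsum S' T).flat.Lam :=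
    (Equiv.ofBijective F1 b1).symm.trans
      ((Equiv.prodCongr θ (Equiv.refl _)).trans (Equiv.ofBijective F2 b2))
  have key : ∀ p, Θ (F1 p) = F2 (θ p.1, p.2) := by
    intro p
    have e : (Equiv.ofBijective F1 b1).symm (F1 p) = p :=
      (Equiv.ofBijective F1 b1).symm_apply_apply p
    show (Equiv.ofBijective F2 b2) ((Equiv.prodCongr θ (Equiv.refl _))
      ((Equiv.ofBijective F1 b1).symm (F1 p))) = _
    rw [e]
    rfl
  refine ⟨Θ, ?_, ?_, ?_, ?_⟩
  · intro x y z hxyz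
    obtain ⟨⟨a, b⟩, rfl⟩ := b1.2 x
    obtain ⟨⟨a', b'⟩, rfl⟩ := b1.2 y
    obtain ⟨⟨a'', b''⟩, rfl⟩ := b1.2 z
    rw [key, key, key]
    have e : a''.1.mapDomain (vdL S T) + b''.1.mapDomain (vdR S T) =
        (a.1 + a'.1).mapDomain (vdL S T) + (b.1 + b'.1).mapDomain (vdR S T) := by
      rw [Finsupp.mapDomain_add, Finsupp.mapDomain_add]
      refine Eq.trans hxyz ?_
      show (a.1.mapDomain (vdL S T) + b.1.mapDomain (vdR S T)) +
        (a'.1.mapDomain (vdL S T) + b'.1.mapDomain (vdR S T)) = _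
      abel
    obtain ⟨e1, e2⟩ := uniq hL hV a''.2.1 (add_mem a.2.1 a'.2.1) b''.2 (add_mem b.2 b'.2) e
    have e3 := h1 a a' a'' e1
    show ((θ a'').1.mapDomain (vdL S' T) + b''.1.mapDomain (vdR S' T)) =
      ((θ a).1.mapDomain (vdL S' T) + b.1.mapDomain (vdR S' T)) +
        ((θ a').1.mapDomain (vdL S' T) + b'.1.mapDomain (vdR S' T))
    rw [e2, e3, Finsupp.mapDomain_add, Finsupp.mapDomain_add]
    abel
  · intro m
    obtain ⟨⟨a, b⟩, rfl⟩ := b1.2 m
    rw [key]
    show (dsumLFD T φ).wmono (a.1.mapDomain (vdL S T) + b.1.mapDomain (vdR S T)) /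
      (Net.dsum S' T).flat.mono ((θ a).1.mapDomain (vdL S' T) + b.1.mapDomain (vdR S' T)) ∈ _
    rw [wmono_sum φ hL hV hφ.wpos a.2.1 b.2, mono_sum]
    have hb0 : liftF (vdR S' T) (T.flat.mono b.1) ≠ 0 := by
      rw [Ne, map_eq_zero]
      exact lmono_ne_zero _ (fun v => xx_ne_zero v) _
    rw [mul_div_mul_right _ _ hb0, ← map_div₀]
    exact lift_gapLam hLds hV' _ (h2 a)
  · intro m
    obtain ⟨⟨a, b⟩, rfl⟩ := b1.2 m
    rw [key]
    refine (lab0 hL hV a.2.1 b.2).trans (Iff.trans ?_ (lab0 hL hV' (θ a).2 b.2).symm)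
    rw [h3 a]
  · intro m hm
    obtain ⟨⟨a, b⟩, rfl⟩ := b1.2 m
    rw [key]
    have hm' := (lab0 hL hV a.2.1 b.2).mp hm
    show (dsumLFD T φ).wmono (a.1.mapDomain (vdL S T) + b.1.mapDomain (vdR S T)) =
      (Net.dsum S' T).flat.mono ((θ a).1.mapDomain (vdL S' T) + b.1.mapDomain (vdR S' T))
    rw [wmono_sum φ hL hV hφ.wpos a.2.1 b.2, mono_sum, h4 a hm'.1]

/-- CDSL -/
theorem cdsumL (hLds : LdsStmt) (hL : LsumStmt) (hF : FacetStmt) : CdsumLStmt := by
  intro S T S' φ hV hS hG hφ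
  obtain ⟨hV', hE, -, hsub⟩ := hF _ _ hV (Net.Facet.dsumL S T S' hS)
  have hFS := hF S S' hV.1 hS
  have wS := Net.wf' S hV.1
  have wS' := Net.wf' S' hV'.1
  have wT := Net.wf' T hV.2.1
  have hd := hV.2.2
  have hgap : ∀ f ∈ S'.flat.gapField, liftF (vdL S' T) f ∈ (Net.dsum S' T).flat.gapField :=
    fun f hf => liftF_gap (vdL S' T) (fun h => ⟨Sum.inl h, rfl⟩) f hf
  have hTne : ∀ K ∈ T.M, liftF (vdR S' T) (T.flat.P K) ≠ 0 := by
    intro K hK
    rw [Ne, map_eq_zero]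
    exact P_ne_zero _ _ ((wT.ne K).mpr hK)
  have hTne' : ∀ K ∈ T.M, (RatFunc.C (liftF (vdR S' T) (T.flat.P K)) :
      RatFunc (Net.dsum S' T).flat.F) ≠ 0 := by
    intro K hK
    rw [Ne, map_eq_zero]
    exact hTne K hK
  have hpos : ∀ v, (Net.dsum S' T).flat.Pos ((dsumLFD T φ).w v) := fun v => w_ne φ hφ.wpos v
  have hPne : ∀ I ∈ (Net.dsum S' T).M, (dsumLFD T φ).P I ≠ 0 := by
    intro I hI
    refine phi_P_ne_zero _ hpos I (((Net.wf' _ hV).ne I).mpr (hsub.1 hI))
  have hφne : ∀ J ∈ S.M, φ.P J ≠ 0 := fun J hJ =>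
    phi_P_ne_zero φ hφ.wpos J ((wS.ne J).mpr hJ)
  have hφne' : ∀ J ∈ S.M, mapR (liftF (vdL S' T)) (φ.P J) ≠ 0 := fun J hJ => by
    rw [Ne, map_eq_zero]
    exact hφne J hJ
  have hmem : ∀ J ∈ S'.M, ∀ K ∈ T.M, J ∪ K ∈ (Net.dsum S' T).M := fun J hJ K hK =>
    (dsum_M _).mpr ⟨J, hJ, K, hK, rfl⟩
  have hSS' : S'.M ⊆ S.M := hFS.2.2.2.1
  -- Mon from the left
  have monL : ∀ K ∈ T.M, ∀ f ∈ Mon S'.M φ.P,
      mapR (liftF (vdL S' T)) f ∈ Mon (Net.dsum S' T).M (dsumLFD T φ).P := by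
    intro K hK f hf
    exact mon_family' hPne (mapR (liftF (vdL S' T))) (fun J => J ∪ K) _ (hTne' K hK)
      (fun J hJ => hmem J hJ K hK) (fun J hJ => dsumLFD_P T φ hV J K (hSS' hJ) hK) hf
  -- Mon from the right
  have monR : ∀ J ∈ S'.M, ∀ f ∈ Mon T.M T.flat.P,
      (RatFunc.C (liftF (vdR S' T) f) : RatFunc (Net.dsum S' T).flat.F) ∈
        Mon (Net.dsum S' T).M (dsumLFD T φ).P := by
    intro J hJ f hf
    refine mon_family' hPne (RatFunc.C.comp (liftF (vdR S' T))) (fun K => J ∪ K) _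
      (hφne' J (hSS' hJ)) (fun K hK => hmem J hJ K hK) (fun K hK => ?_) hf
    rw [dsumLFD_P T φ hV J K (hSS' hJ) hK, mul_comm]
    rfl
  refine ⟨hpos, ?_, ?_, ?_, ?_, hsub, ?_, ?_, ?_, ?_, ?_⟩
  · intro i
    by_cases hi : i ∈ T.E
    · rw [w_inl' φ hi, flat_x, div_self (xx_ne_zero _)]
      exact one_mem _
    · rw [w_inl φ hi]
      have := hgap _ (hφ.wlab i)
      rw [map_div₀, flat_x, liftF_x] at this
      exact this
  · intro h
    rcases h with h | h
    · exact hgap _ (hφ.wgap h)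
    · exact gap_x _ _
  · exact PosF.liftF _ hφ.kpos
  · exact hgap _ hφ.kgap
  · intro I hI
    obtain ⟨J, hJ, K, hK, rfl⟩ := (dsum_M I).mp hI
    obtain ⟨R, hR⟩ := hφ.r2 J hJ
    refine ⟨R.map (liftF (vdL S' T)) * Polynomial.C (liftF (vdR S' T) (T.flat.P K)), ?_⟩
    have hP' : (Net.dsum S' T).flat.P (J ∪ K) =
        liftF (vdL S' T) (S'.flat.P J) * liftF (vdR S' T) (T.flat.P K) := by
      by_cases hJ' : J ∈ S'.M
      · exact dsum_P hV' J K hJ' hK
      · have e1 : S'.flat.P J = 0 := by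
          apply P_eq_zero
          by_contra h
          exact hJ' ((wS'.ne J).mp h)
        have e2 : (Net.dsum S' T).flat.P (J ∪ K) = 0 := by
          apply P_eq_zero
          by_contra h
          have h' := ((Net.wf' _ hV').ne _).mp h
          rw [dsum_mem_iff S' T wS'.sub wT.sub hV'.2.2] at h'
          apply hJ'
          have e3 : (J ∪ K) ∩ S'.E = J := by
            rw [hFS.2.1]
            ext x
            simp only [Finset.mem_inter, Finset.mem_union]
            constructor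
            · rintro ⟨h1 | h1, h2⟩
              · exact h1
              · exact absurd (wT.sub K hK h1) (Finset.disjoint_left.mp hd h2)
            · intro h; exact ⟨Or.inl h, wS.sub J hJ h⟩
          rw [← e3]
          exact h'.2.1
        rw [e1, e2, map_zero, zero_mul]
    rw [dsumLFD_P T φ hV J K hJ hK, hR, hP']
    simp only [map_mul, map_add, map_zpow₀, mapR_C, mapR_s, mapR_algebraMap, RatFunc.algebraMap_C]
    show _ = sVar _ ^ φ.e * RatFunc.C (liftF (vdL S' T) φ.κ) * _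
    ring
  · intro I hI μ hμ
    obtain ⟨J, hJ, K, hK, rfl⟩ := (dsum_M I).mp hI
    obtain ⟨a, ha, b, hb, rfl⟩ := (dsum_exp hV' J K hJ hK μ).mp hμ
    have hm : (Net.dsum S' T).flat.mono
        (zexp (a.mapDomain (vdL S' T) + b.mapDomain (vdR S' T))) =
        liftF (vdL S' T) (S'.flat.mono (zexp a)) * liftF (vdR S' T) (T.flat.mono (zexp b)) := by
      rw [zexp_add, zexp_mapDomain, zexp_mapDomain, mono_sum]
    have c1 := monL K hK _ (hφ.r3 J hJ a ha)
    have c2 := monR J hJ _ (mon_inv (hG K hK b hb))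
    have c3 := mon_mul hPne c1 c2
    refine Eq.subst (motive := fun f => f ∈ Mon (Net.dsum S' T).M (dsumLFD T φ).P) ?_ c3
    rw [dsumLFD_P T φ hV J K (hSS' hJ) hK, hm]
    simp only [map_mul, map_div₀, map_inv₀, map_zpow₀, mapR_C, mapR_s]
    show _ = _ * (sVar _ ^ φ.e * RatFunc.C (liftF (vdL S' T) φ.κ)) / _
    have := hφne' J (hSS' hJ)
    have := hTne' K hK
    field_simp
  · obtain ⟨I₁, hI₁, hI₁', I₀, hI₀, h, hh, y, hy, he⟩ := hφ.r3s
    obtain ⟨K, hK⟩ := wT.nonempty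
    refine ⟨I₁ ∪ K, (dsum_M _).mpr ⟨I₁, hI₁, K, hK, rfl⟩, ?_, I₀ ∪ K, hmem I₀ hI₀ K hK,
      mapR (liftF (vdL S' T)) h, monL K hK h hh, liftF (vdL S' T) y, ?_, ?_⟩
    · intro h'
      rw [dsum_mem_iff S' T wS'.sub wT.sub hV'.2.2] at h'
      apply hI₁'
      have e3 : (I₁ ∪ K) ∩ S'.E = I₁ := by
        rw [hFS.2.1]
        ext x
        simp only [Finset.mem_inter, Finset.mem_union]
        constructor
        · rintro ⟨h1 | h1, h2⟩
          · exact h1
          · exact absurd (wT.sub K hK h1) (Finset.disjoint_left.mp hd h2)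
        · intro h; exact ⟨Or.inl h, wS.sub I₁ hI₁ h⟩
      rw [← e3]
      exact h'.2.1
    · rwa [Ne, map_eq_zero]
    · rw [dsumLFD_P T φ hV I₁ K hI₁ hK, dsumLFD_P T φ hV I₀ K (hSS' hI₀) hK]
      have := congrArg (mapR (liftF (vdL S' T))) he
      simp only [map_mul, map_div₀, mapR_s, mapR_C] at this
      rw [← this]
      have := hφne' I₀ (hSS' hI₀)
      have := hTne' K hK
      field_simp
  · exact res φ hLds hL hV hV' hφ
  · obtain ⟨m, hm, hm1⟩ := hφ.one
    refine ⟨m.mapDomain (vdL S T) + (0 : T.flat.V →₀ ℤ).mapDomain (vdR S T),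
      (hLds S T hV _).mpr ⟨m, hm, 0, zero_mem _, rfl⟩, ?_⟩
    rw [pair_sum φ hL hV hm (zero_mem _)]
    exact hm1

end dsum

end ABCT.H65
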